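import Pool.Agent.Steiner.Basic

set_option autoImplicit false

open MeasureTheory
open scoped ENNReal NNReal

namespace Pool.Agent.Steiner

/-- intersection graph of a family of sets -/
def igraph (V : ℕ → Set P) : SimpleGraph ℕ where
  Adj i j := i ≠ j ∧ (V i ∩ V j).Nonempty
  symm := ⟨fun _ _ h => ⟨h.1.symm, by rw [Set.inter_comm]; exact h.2⟩⟩
  loopless := ⟨fun _ h => h.1 rfl⟩

theorem reach {V : ℕ → Set P} (hV : ∀ n, IsOpen (V n)) {S : Set P} (hS : IsPreconnected S)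
    (hcov : S ⊆ ⋃ n, V n) {x y : P} {i j : ℕ} (hx : x ∈ S) (hxi : x ∈ V i) (hy : y ∈ S) (hyj : y ∈ V j) :
    (igraph V).Reachable i j := by
  by_contra hcon
  have h1 : IsOpen (⋃ k ∈ {k | (igraph V).Reachable i k}, V k) := isOpen_biUnion fun k _ => hV k
  have h2 : IsOpen (⋃ k ∈ {k | ¬ (igraph V).Reachable i k}, V k) := isOpen_biUnion fun k _ => hV k
  have h3 : S ⊆ (⋃ k ∈ {k | (igraph V).Reachable i k}, V k) ∪ (⋃ k ∈ {k | ¬ (igraph V).Reachable i k}, V k) := by
    intro z hz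
    obtain ⟨k, hk⟩ := Set.mem_iUnion.mp (hcov hz)
    by_cases hr : (igraph V).Reachable i k
    · left; exact Set.mem_biUnion (show k ∈ {k | (igraph V).Reachable i k} from hr) hk
    · right; exact Set.mem_biUnion (show k ∈ {k | ¬ (igraph V).Reachable i k} from hr) hk
  obtain ⟨z, hzS, hz1, hz2⟩ := hS _ _ h1 h2 h3
    ⟨x, hx, Set.mem_biUnion (show i ∈ {k | (igraph V).Reachable i k} from SimpleGraph.Reachable.refl i) hxi⟩
    ⟨y, hy, Set.mem_biUnion (show j ∈ {k | ¬ (igraph V).Reachable i k} from hcon) hyj⟩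
  obtain ⟨k, hk, hzk⟩ := Set.mem_iUnion₂.mp hz1
  obtain ⟨l, hl, hzl⟩ := Set.mem_iUnion₂.mp hz2
  have hk' : (igraph V).Reachable i k := hk
  have hl' : ¬ (igraph V).Reachable i l := hl
  apply hl'
  have hkl : k ≠ l := by rintro rfl; exact hl' hk'
  exact hk'.trans (SimpleGraph.Adj.reachable (show (igraph V).Adj k l from ⟨hkl, z, hzk, hzl⟩))

theorem base_step {V : ℕ → Set P} {d : ℕ → ℝ} (hd : ∀ n, ∀ x ∈ V n, ∀ y ∈ V n, dist x y ≤ d n) {ρ : ℝ}
    (hρ : ∀ n, d n ≤ ρ) {base : P} {i : ℕ} (F : Finset ℕ) (E : List (P × P)) (c : ℝ) (hi : i ∈ F)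
    (hF : ∀ k ∈ F, ∃ q ∈ V k, Conn E base q) (hlen : len E ≤ ∑ k ∈ F, d k + c) {p : P} (hp : p ∈ V i) :
    ∃ E' : List (P × P), (∀ e ∈ E, e ∈ E') ∧
      (∀ k ∈ F, ∃ q ∈ V k, Conn E' base q) ∧ len E' ≤ ∑ k ∈ F, d k + c + ρ ∧ Conn E' base p := by
  obtain ⟨q, hq, hconn⟩ := hF i hi
  have hsub : ∀ e ∈ E, e ∈ ((q, p) :: E) := fun e he => List.mem_cons_of_mem _ he
  refine ⟨(q, p) :: E, hsub, ?_, ?_, ?_⟩
  · intro k hk
    obtain ⟨q', hq', hc'⟩ := hF k hk
    exact ⟨q', hq', hc'.mono hsub⟩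
  · unfold len at hlen ⊢
    rw [List.map_cons, List.sum_cons]
    have := hd i q hq p hp
    have := hρ i
    simp only
    linarith
  · exact (hconn.mono hsub).trans (Conn.single (Or.inl List.mem_cons_self))

theorem step {V : ℕ → Set P} {d : ℕ → ℝ} (hd : ∀ n, ∀ x ∈ V n, ∀ y ∈ V n, dist x y ≤ d n) {ρ : ℝ}
    (hρ : ∀ n, d n ≤ ρ) {base : P} {i f : ℕ} (w : (igraph V).Walk i f) (hw : w.IsPath)
    (F : Finset ℕ) (E : List (P × P)) (c : ℝ) (hf : f ∈ F)
    (hF : ∀ k ∈ F, ∃ q ∈ V k, Conn E base q) (hlen : len E ≤ ∑ k ∈ F, d k + c) {p : P} (hp : p ∈ V i) :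
    ∃ (F' : Finset ℕ) (E' : List (P × P)), F ⊆ F' ∧ (∀ k ∈ F', k ∈ F ∨ k ∈ w.support) ∧ (∀ e ∈ E, e ∈ E') ∧
      (∀ k ∈ F', ∃ q ∈ V k, Conn E' base q) ∧ len E' ≤ ∑ k ∈ F', d k + c + ρ ∧ Conn E' base p := by
  induction w generalizing p with
  | nil =>
    obtain ⟨E', h1, h2, h3, h4⟩ := base_step hd hρ F E c hf hF hlen hp
    exact ⟨F, E', subset_rfl, fun k hk => Or.inl hk, h1, h2, h3, h4⟩
  | @cons i j f h w' ih =>
    by_cases hiF : i ∈ F
    · obtain ⟨E', h1, h2, h3, h4⟩ := base_step hd hρ F E c hiF hF hlen hp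
      exact ⟨F, E', subset_rfl, fun k hk => Or.inl hk, h1, h2, h3, h4⟩
    · rw [SimpleGraph.Walk.cons_isPath_iff] at hw
      obtain ⟨hw', hi⟩ := hw
      obtain ⟨z, hzi, hzj⟩ := h.2
      obtain ⟨F', E', g1, g2, g3, g4, g5, g6⟩ := ih hw' hf hzj
      have hiF' : i ∉ F' := by
        intro hcon
        rcases g2 i hcon with h | h
        · exact hiF h
        · exact hi h
      have hsub : ∀ e ∈ E', e ∈ ((z, p) :: E') := fun e he => List.mem_cons_of_mem _ he
      refine ⟨insert i F', (z, p) :: E', g1.trans (Finset.subset_insert _ _), ?_, ?_, ?_, ?_, ?_⟩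
      · intro k hk
        rw [SimpleGraph.Walk.support_cons]
        rcases Finset.mem_insert.mp hk with rfl | hk
        · right; exact List.mem_cons_self
        · rcases g2 k hk with h | h
          · exact Or.inl h
          · exact Or.inr (List.mem_cons_of_mem _ h)
      · exact fun e he => hsub e (g3 e he)
      · intro k hk
        rcases Finset.mem_insert.mp hk with rfl | hk
        · exact ⟨z, hzi, g6.mono hsub⟩
        · obtain ⟨q', hq', hc'⟩ := g4 k hk
          exact ⟨q', hq', hc'.mono hsub⟩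
      · rw [Finset.sum_insert hiF']
        unfold len at g5 ⊢
        rw [List.map_cons, List.sum_cons]
        have := hd i z hzi p hp
        simp only
        linarith
      · exact (g6.mono hsub).trans (Conn.single (Or.inl List.mem_cons_self))

theorem collect {V : ℕ → Set P} (hV : ∀ n, IsOpen (V n)) {d : ℕ → ℝ} (hd0 : ∀ n, 0 ≤ d n)
    (hd : ∀ n, ∀ x ∈ V n, ∀ y ∈ V n, dist x y ≤ d n) {ρ : ℝ}
    (hρ : ∀ n, d n ≤ ρ) {S : Set P} (hS : IsPreconnected S) (hcov : S ⊆ ⋃ n, V n)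
    {base : P} (hbase : base ∈ S) {j0 : ℕ} (hj0 : base ∈ V j0) (ps : List P) (hps : ∀ p ∈ ps, p ∈ S) :
    ∃ (F : Finset ℕ) (E : List (P × P)), j0 ∈ F ∧ (∀ k ∈ F, ∃ q ∈ V k, Conn E base q) ∧
      len E ≤ ∑ k ∈ F, d k + ps.length * ρ ∧ ∀ p ∈ ps, Conn E base p := by
  induction ps with
  | nil =>
    refine ⟨{j0}, [], by simp, ?_, ?_, by simp⟩
    · intro k hk
      rw [Finset.mem_singleton] at hk
      exact ⟨base, hk ▸ hj0, Conn.refl _⟩
    · simp [len, hd0 j0]
  | cons p ps ih =>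
    obtain ⟨F, E, h1, h2, h3, h4⟩ := ih fun q hq => hps q (List.mem_cons_of_mem _ hq)
    have hpS := hps p List.mem_cons_self
    obtain ⟨i, hi⟩ := Set.mem_iUnion.mp (hcov hpS)
    obtain ⟨w, hw⟩ := (reach hV hS hcov hpS hi hbase hj0).exists_isPath
    obtain ⟨F', E', g1, g2, g3, g4, g5, g6⟩ := step hd hρ w hw F E (ps.length * ρ) h1 h2 h3 hi
    refine ⟨F', E', g1 h1, g4, ?_, ?_⟩
    · rw [List.length_cons]; push_cast; linarith
    · intro q hq
      rcases List.mem_cons.mp hq with rfl | hq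
      · exact g6
      · exact (h4 q hq).mono g3

/-- A connected set of Hausdorff measure at most `K` can be replaced by a finite list of edges of total
length at most `K + 1` connecting prescribed points. -/
theorem exists_list {S : Set P} (hS : IsPreconnected S) {K : ℝ} (hK : 0 ≤ K)
    (hH : Measure.hausdorffMeasure 1 S ≤ ENNReal.ofReal K) {base : P} (hbase : base ∈ S)
    (ps : List P) (hps : ∀ p ∈ ps, p ∈ S) :
    ∃ E : List (P × P), len E ≤ K + 1 ∧ ∀ p ∈ ps, Conn E base p := by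
  classical
  set ρ : ℝ := 1 / (4 * (ps.length + 1)) with hρdef
  have hρ : 0 < ρ := by positivity
  have hρ1 : ps.length * ρ ≤ 1 / 4 := by
    rw [hρdef, mul_one_div, div_le_div_iff₀ (by positivity) (by norm_num)]
    linarith
  have hρ2 : ρ ≤ 1 / 4 := by
    rw [hρdef]
    apply one_div_le_one_div_of_le (by norm_num)
    have : (0 : ℝ) ≤ ps.length := Nat.cast_nonneg _
    linarith
  rw [Measure.hausdorffMeasure_apply] at hH
  have hr0 : (0 : ℝ≥0∞) < ENNReal.ofReal (ρ / 2) := ENNReal.ofReal_pos.mpr (by positivity)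
  have h1 : ⨅ (t : ℕ → Set P) (_ : S ⊆ ⋃ n, t n) (_ : ∀ n, Metric.ediam (t n) ≤ ENNReal.ofReal (ρ / 2)),
          ∑' n, ⨆ _ : (t n).Nonempty, Metric.ediam (t n) ^ (1 : ℝ) ≤ ENNReal.ofReal K :=
    (le_iSup₂_of_le (ENNReal.ofReal (ρ / 2)) hr0 le_rfl).trans hH
  have h2 : ENNReal.ofReal K < ENNReal.ofReal (K + 1 / 4) :=
    (ENNReal.ofReal_lt_ofReal_iff (by linarith)).mpr (by linarith)
  have h3 := h1.trans_lt h2
  simp only [iInf_lt_iff] at h3
  obtain ⟨t, ht1, ht2, ht3⟩ := h3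
  set δ : ℕ → ℝ := fun n => ρ / 8 * (1 / 2) ^ n with hδ
  have hδ0 : ∀ n, 0 < δ n := fun n => by simp only [hδ]; positivity
  have hδ1 : ∀ n, δ n ≤ ρ / 8 := fun n => by
    simp only [hδ]
    have : ((1 : ℝ) / 2) ^ n ≤ 1 := pow_le_one₀ (by norm_num) (by norm_num)
    nlinarith
  set V : ℕ → Set P := fun n => Metric.thickening (δ n) (t n) with hV
  set d : ℕ → ℝ := fun n => if (t n).Nonempty then (Metric.ediam (t n)).toReal + 2 * δ n else 0 with hddef
  have htop : ∀ n, Metric.ediam (t n) ≠ ⊤ := fun n => ((ht2 n).trans_lt ENNReal.ofReal_lt_top).ne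
  have hdn : ∀ n, (t n).Nonempty → d n = (Metric.ediam (t n)).toReal + 2 * δ n := fun n hn => by
    simp only [hddef, if_pos hn]
  have hdn' : ∀ n, ¬ (t n).Nonempty → d n = 0 := fun n hn => by
    simp only [hddef, if_neg hn]
  have hd0 : ∀ n, 0 ≤ d n := by
    intro n
    by_cases hn : (t n).Nonempty
    · rw [hdn n hn]
      have := hδ0 n
      have : 0 ≤ (Metric.ediam (t n)).toReal := ENNReal.toReal_nonneg
      linarith
    · rw [hdn' n hn]
  have hdd : ∀ n, ∀ x ∈ V n, ∀ y ∈ V n, dist x y ≤ d n := by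
    intro n x hx y hy
    obtain ⟨x', hx', hxx⟩ := Metric.mem_thickening_iff.mp hx
    obtain ⟨y', hy', hyy⟩ := Metric.mem_thickening_iff.mp hy
    rw [hdn n ⟨x', hx'⟩]
    have h4 : dist x' y' ≤ (Metric.ediam (t n)).toReal := by
      rw [dist_edist]
      exact ENNReal.toReal_mono (htop n) (Metric.edist_le_ediam_of_mem hx' hy')
    have h5 : dist x y ≤ dist x x' + dist x' y' + dist y' y := dist_triangle4 _ _ _ _
    rw [dist_comm y' y] at h5
    linarith
  have hdρ : ∀ n, d n ≤ ρ := by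
    intro n
    by_cases hn : (t n).Nonempty
    · rw [hdn n hn]
      have h4 : (Metric.ediam (t n)).toReal ≤ ρ / 2 := by
        have := ENNReal.toReal_mono ENNReal.ofReal_ne_top (ht2 n)
        rwa [ENNReal.toReal_ofReal (by positivity)] at this
      have := hδ1 n
      linarith
    · rw [hdn' n hn]; exact hρ.le
  have hsum : ∀ F : Finset ℕ, ∑ k ∈ F, d k ≤ K + 1 / 2 := by
    intro F
    have a1 : ∑ k ∈ F, (⨆ _ : (t k).Nonempty, Metric.ediam (t k) ^ (1 : ℝ)) ≤ ENNReal.ofReal (K + 1 / 4) :=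
      (ENNReal.sum_le_tsum F).trans ht3.le
    have a2 : ∀ k, (⨆ _ : (t k).Nonempty, Metric.ediam (t k) ^ (1 : ℝ)) ≠ ⊤ := by
      intro k
      refine ne_top_of_le_ne_top (htop k) ?_
      exact iSup_le fun _ => (ENNReal.rpow_one _).le
    have a3 : ∑ k ∈ F, (⨆ _ : (t k).Nonempty, Metric.ediam (t k) ^ (1 : ℝ)).toReal ≤ K + 1 / 4 := by
      rw [← ENNReal.toReal_sum fun k _ => a2 k]
      have := ENNReal.toReal_mono ENNReal.ofReal_ne_top a1
      rwa [ENNReal.toReal_ofReal (by positivity)] at this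
    have a4 : ∀ k ∈ F, d k ≤ (⨆ _ : (t k).Nonempty, Metric.ediam (t k) ^ (1 : ℝ)).toReal + 2 * δ k := by
      intro k _
      by_cases hn : (t k).Nonempty
      · rw [hdn k hn, iSup_pos hn, ENNReal.rpow_one]
      · rw [hdn' k hn]
        have := hδ0 k
        have : 0 ≤ (⨆ _ : (t k).Nonempty, Metric.ediam (t k) ^ (1 : ℝ)).toReal := ENNReal.toReal_nonneg
        linarith
    have a5 : ∑ k ∈ F, (2 * δ k) ≤ 1 / 4 := by
      have b1 : Summable (fun k : ℕ => 2 * δ k) := by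
        simp only [hδ]
        exact ((summable_geometric_two).mul_left (ρ / 8)).mul_left 2
      have b2 : ∑' k : ℕ, 2 * δ k = ρ / 2 := by
        simp only [hδ]
        rw [tsum_mul_left, tsum_mul_left, tsum_geometric_two]
        ring
      have b3 := b1.sum_le_tsum F (fun k _ => by have := hδ0 k; linarith)
      rw [b2] at b3
      linarith
    have a6 := Finset.sum_le_sum a4
    rw [Finset.sum_add_distrib] at a6
    linarith
  have hcov : S ⊆ ⋃ n, V n := by
    intro x hx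
    obtain ⟨n, hn⟩ := Set.mem_iUnion.mp (ht1 hx)
    exact Set.mem_iUnion.mpr ⟨n, Metric.self_subset_thickening (hδ0 n) _ hn⟩
  obtain ⟨j0, hj0⟩ := Set.mem_iUnion.mp (hcov hbase)
  obtain ⟨F, E, _, _, h7, h8⟩ := collect (fun n => Metric.isOpen_thickening) hd0 hdd hdρ hS hcov hbase hj0 ps hps
  exact ⟨E, by have := hsum F; linarith, h8⟩

end Pool.Agent.Steiner
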