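import Pool.Agent.Steiner.PL

set_option autoImplicit false

open MeasureTheory

namespace Pool.Agent.Steiner

theorem conn_map (E : List (P × P)) (f : P → P) {a b : P} (h : Conn E a b) :
    Conn (E.map fun e => (f e.1, f e.2)) (f a) (f b) := by
  induction h with
  | refl => exact Conn.refl _
  | tail _ hadj ih =>
    refine Relation.ReflTransGen.tail ih ?_
    rcases hadj with h | h
    · exact Or.inl (List.mem_map.mpr ⟨_, h, rfl⟩)
    · exact Or.inr (List.mem_map.mpr ⟨_, h, rfl⟩)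

theorem cut_point (p q : P) (t : ℝ) (hpq : Crs t (p 1) (q 1)) :
    ∃ c : P, c 1 = t ∧ dist p c + dist c q = dist p q := by
  have hne : q 1 - p 1 ≠ 0 := by
    rcases hpq with ⟨h1, h2⟩ | ⟨h1, h2⟩
    · intro h; linarith
    · intro h; linarith
  set s := (t - p 1) / (q 1 - p 1) with hs
  have hs0 : 0 ≤ s := by
    rcases hpq with ⟨h1, h2⟩ | ⟨h1, h2⟩
    · exact div_nonneg (by linarith) (by linarith)
    · exact div_nonneg_of_nonpos (by linarith) (by linarith)
  have hs1 : s ≤ 1 := by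
    rcases hpq with ⟨h1, h2⟩ | ⟨h1, h2⟩
    · exact (div_le_one (by linarith)).mpr (by linarith)
    · rw [hs, div_le_one_of_neg (by linarith)]; linarith
  refine ⟨AffineMap.lineMap p q s, ?_, ?_⟩
  · rw [AffineMap.lineMap_apply_module']
    simp only [PiLp.add_apply, PiLp.smul_apply, PiLp.sub_apply, smul_eq_mul]
    rw [hs, div_mul_cancel₀ _ hne]
    ring
  · exact Wbtw.dist_add_dist ⟨s, ⟨hs0, hs1⟩, rfl⟩

theorem exists_cut_point (E : List (P × P)) (t : ℝ) (hN : N E t < 2) :
    ∃ c : P, c 1 = t ∧ ∀ e ∈ E, Crs t (e.1 1) (e.2 1) → dist e.1 c + dist c e.2 = dist e.1 e.2 := by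
  classical
  by_cases hex : ∃ e ∈ E, Crs t (e.1 1) (e.2 1)
  · obtain ⟨e, he, hc⟩ := hex
    obtain ⟨c, hc1, hc2⟩ := cut_point e.1 e.2 t hc
    refine ⟨c, hc1, ?_⟩
    intro e' he' hc'
    have h1 : N E t = 1 := by
      have : 0 < N E t := by
        unfold N
        rw [List.countP_pos_iff]
        exact ⟨e, he, by simpa using hc⟩
      omega
    unfold N at h1
    rw [List.countP_eq_length_filter, List.length_eq_one_iff] at h1
    obtain ⟨e0, h0⟩ := h1
    have m1 : e ∈ E.filter (fun e => decide (Crs t (e.1 1) (e.2 1))) := by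
      rw [List.mem_filter]; exact ⟨he, by simpa using hc⟩
    have m2 : e' ∈ E.filter (fun e => decide (Crs t (e.1 1) (e.2 1))) := by
      rw [List.mem_filter]; exact ⟨he', by simpa using hc'⟩
    rw [h0, List.mem_singleton] at m1 m2
    rw [m2, ← m1]
    exact hc2
  · push Not at hex
    exact ⟨!₂[0, t], by simp, fun e he hc => absurd hc (hex e he)⟩

theorem cut (E : List (P × P)) (t : ℝ) (hgen : Gen E t) (hN : N E t < 2) :
    ∃ (El Er : List (P × P)) (c : P), c 1 = t ∧ len El + len Er ≤ len E ∧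
      (∀ a b, Conn E a b → a 1 < t → t < b 1 → Conn El a c ∧ Conn Er c b) ∧
      (∀ a b, Conn E a b → t < a 1 → t < b 1 → Conn Er a b) ∧
      (∀ t', t < t' → Gen Er t' → Gen E t' ∧ N E t' = N Er t') := by
  classical
  obtain ⟨c, hc1, hc2⟩ := exists_cut_point E t hN
  set πl : P → P := fun z => if z 1 < t then z else c with hπl
  set πr : P → P := fun z => if t < z 1 then z else c with hπr
  have l1 : ∀ z : P, z 1 < t → πl z = z := fun z hz => by simp only [hπl, if_pos hz]
  have l2 : ∀ z : P, ¬ z 1 < t → πl z = c := fun z hz => by simp only [hπl, if_neg hz]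
  have r1 : ∀ z : P, t < z 1 → πr z = z := fun z hz => by simp only [hπr, if_pos hz]
  have r2 : ∀ z : P, ¬ t < z 1 → πr z = c := fun z hz => by simp only [hπr, if_neg hz]
  refine ⟨E.map fun e => (πl e.1, πl e.2), E.map fun e => (πr e.1, πr e.2), c, hc1, ?_, ?_, ?_, ?_⟩
  · unfold len
    rw [List.map_map, List.map_map, ← List.sum_map_add]
    apply List.sum_le_sum
    intro e he
    simp only [Function.comp]
    obtain ⟨g1, g2⟩ := hgen e he
    rcases lt_or_gt_of_ne g1 with h1 | h1 <;> rcases lt_or_gt_of_ne g2 with h2 | h2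
    · rw [l1 _ h1, l1 _ h2, r2 _ h1.not_gt, r2 _ h2.not_gt, dist_self, add_zero]
    · rw [l1 _ h1, l2 _ h2.not_gt, r2 _ h1.not_gt, r1 _ h2, hc2 e he (Or.inl ⟨h1, h2⟩)]
    · rw [l2 _ h1.not_gt, l1 _ h2, r1 _ h1, r2 _ h2.not_gt, add_comm, hc2 e he (Or.inr ⟨h2, h1⟩)]
    · rw [l2 _ h1.not_gt, l2 _ h2.not_gt, r1 _ h1, r1 _ h2, dist_self, zero_add]
  · intro a b hab ha hb
    have h1 := conn_map E πl hab
    have h2 := conn_map E πr hab
    rw [l1 a ha, l2 b hb.not_gt] at h1
    rw [r2 a ha.not_gt, r1 b hb] at h2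
    exact ⟨h1, h2⟩
  · intro a b hab ha hb
    have h2 := conn_map E πr hab
    rw [r1 a ha, r1 b hb] at h2
    exact h2
  · intro t' ht' hgen'
    have side : ∀ z : P, (πr z) 1 < t' ↔ z 1 < t' := by
      intro z
      by_cases hz : t < z 1
      · rw [r1 z hz]
      · rw [r2 z hz, hc1]
        exact ⟨fun _ => lt_of_le_of_lt (not_lt.mp hz) ht', fun _ => ht'⟩
    have side' : ∀ z : P, t' < (πr z) 1 ↔ t' < z 1 := by
      intro z
      by_cases hz : t < z 1
      · rw [r1 z hz]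
      · rw [r2 z hz, hc1]
        exact ⟨fun h => absurd h ht'.not_gt, fun h => absurd (ht'.trans h) hz⟩
    constructor
    · intro e he
      have := hgen' (πr e.1, πr e.2) (List.mem_map.mpr ⟨e, he, rfl⟩)
      simp only at this
      constructor
      · by_cases hz : t < e.1 1
        · have h := this.1; rw [r1 _ hz] at h; exact h
        · have := not_lt.mp hz; exact (this.trans_lt ht').ne
      · by_cases hz : t < e.2 1
        · have h := this.2; rw [r1 _ hz] at h; exact h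
        · have := not_lt.mp hz; exact (this.trans_lt ht').ne
    · unfold N
      rw [List.countP_map]
      congr 1
      funext e
      simp only [Function.comp, Crs, side, side']
      congr

/-- the ladder -/
noncomputable def Uj (j : ℕ) : P := !₂[Real.sqrt 3, 2 * (j : ℝ)]
noncomputable def Dj (j : ℕ) : P := !₂[0, 2 * (j : ℝ)]

@[simp] theorem Uj0 (j : ℕ) : Uj j 0 = Real.sqrt 3 := by simp [Uj]
@[simp] theorem Uj1 (j : ℕ) : Uj j 1 = 2 * (j : ℝ) := by simp [Uj]
@[simp] theorem Dj0 (j : ℕ) : Dj j 0 = 0 := by simp [Dj]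
@[simp] theorem Dj1 (j : ℕ) : Dj j 1 = 2 * (j : ℝ) := by simp [Dj]

theorem exists_gap {m : ℕ} {t : ℝ} (h0 : 0 < t) (hm : t < 2 * ((m : ℝ) - 1))
    (hZ : t ∉ {s : ℝ | ∃ i < m, s = 2 * (i : ℝ)}) :
    ∃ i : ℕ, i + 1 < m ∧ 2 * (i : ℝ) < t ∧ t < 2 * (i : ℝ) + 2 := by
  refine ⟨⌊t / 2⌋₊, ?_, ?_, ?_⟩
  · have h1 : (⌊t / 2⌋₊ : ℝ) ≤ t / 2 := Nat.floor_le (by positivity)
    have h2 : (⌊t / 2⌋₊ : ℝ) + 1 < m := by linarith
    exact_mod_cast h2
  · have h1 : (⌊t / 2⌋₊ : ℝ) ≤ t / 2 := Nat.floor_le (by positivity)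
    have h2 : (⌊t / 2⌋₊ : ℝ) + 1 < m := by linarith
    have h3 : ⌊t / 2⌋₊ < m := by
      have : ⌊t / 2⌋₊ + 1 < m := by exact_mod_cast h2
      omega
    refine lt_of_le_of_ne (by linarith) fun h => hZ ⟨_, h3, h.symm⟩
  · have := Nat.lt_floor_add_one (t / 2)
    linarith

theorem finite_Z (m : ℕ) : {s : ℝ | ∃ i < m, s = 2 * (i : ℝ)}.Finite := by
  have : {s : ℝ | ∃ i < m, s = 2 * (i : ℝ)} = (fun i : ℕ => 2 * (i : ℝ)) '' Set.Iio m := by
    ext s
    simp only [Set.mem_ofPred_eq, Set.mem_image, Set.mem_Iio]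
    exact ⟨fun ⟨i, h1, h2⟩ => ⟨i, h1, h2.symm⟩, fun ⟨i, h1, h2⟩ => ⟨i, h1, h2.symm⟩⟩
  rw [this]
  exact (Set.finite_Iio m).image _

theorem main_bound (m : ℕ) : ∀ (_ : 1 ≤ m) (E : List (P × P)) (R : P),
    (∀ i < m, Conn E R (Uj i) ∧ Conn E R (Dj i)) → 2 * ((m : ℝ) - 1) ≤ R 1 →
    R 1 + 3 / 2 * m - 2 ≤ len E := by
  induction m using Nat.strong_induction_on with
  | _ m ih =>
    intro hm E R hconn hR
    have hm' : (1 : ℝ) ≤ m := by exact_mod_cast hm
    by_cases hex : ∃ j, j + 1 < m ∧ ∃ t : ℝ, 2 * (j : ℝ) < t ∧ t < 2 * (j : ℝ) + 2 ∧ Gen E t ∧ N E t < 2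
    · classical
      obtain ⟨j0, hj0⟩ := hex
      let Q : ℕ → Prop := fun j => j + 1 < m ∧ ∃ t : ℝ, 2 * (j : ℝ) < t ∧ t < 2 * (j : ℝ) + 2 ∧ Gen E t ∧ N E t < 2
      have hQ0 : Q j0 := hj0
      set j := Nat.findGreatest Q m with hj
      have hQj : Q j := Nat.findGreatest_spec (P := Q) (m := j0) (by have := hQ0.1; omega) hQ0
      have hmax : ∀ i, j < i → ¬ Q i := by
        intro i hi hQi
        exact Nat.findGreatest_is_greatest (P := Q) hi (by have := hQi.1; omega) hQi
      obtain ⟨hjm, t, ht1, ht2, hgen, hN⟩ := hQj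
      obtain ⟨El, Er, c, hc1, hlen, hlr, hrr, hNr⟩ := cut E t hgen hN
      have hjm' : (j : ℝ) + 1 + 1 ≤ m := by
        have : j + 1 + 1 ≤ m := by omega
        exact_mod_cast this
      have hRt : t < R 1 := by linarith
      -- left part
      have hleft := ih (j + 1) hjm (by omega) El c (by
        intro i hi
        have hi' : (i : ℝ) ≤ j := by exact_mod_cast (by omega : i ≤ j)
        obtain ⟨hU, hD⟩ := hconn i (by omega)
        exact ⟨(hlr _ _ hU.symm (by rw [Uj1]; linarith) hRt).1.symm,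
          (hlr _ _ hD.symm (by rw [Dj1]; linarith) hRt).1.symm⟩) (by rw [hc1]; push_cast; linarith)
      rw [hc1] at hleft
      push_cast at hleft
      -- right part
      have hm1 : ((m - 1 : ℕ) : ℝ) = (m : ℝ) - 1 := by
        rw [Nat.cast_sub hm]; simp
      have hj1 : ((j + 1 : ℕ) : ℝ) = (j : ℝ) + 1 := by push_cast; ring
      have cU1 := (hconn (j + 1) (by omega)).1
      have cD1 := (hconn (j + 1) (by omega)).2
      have cUr := (hconn (m - 1) (by omega)).1
      have cDr := (hconn (m - 1) (by omega)).2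
      have cU0 := (hconn j (by omega)).1
      have xU1 : t < (Uj (j + 1)) 1 := by rw [Uj1, hj1]; linarith
      have xD1 : t < (Dj (j + 1)) 1 := by rw [Dj1, hj1]; linarith
      have xUr : t < (Uj (m - 1)) 1 := by rw [Uj1, hm1]; linarith
      have xDr : t < (Dj (m - 1)) 1 := by rw [Dj1, hm1]; linarith
      have hright := piece Er c R (Uj (j + 1)) (Dj (j + 1)) (Uj (m - 1)) (Dj (m - 1))
        (t1 := t) (t2 := R 1) (a := 2 * ((j : ℝ) + 1)) (b := 2 * ((m : ℝ) - 1))
        (by linarith) (by linarith) hR hc1 rfl (by rw [Uj1, hj1]) (Uj0 _) (by rw [Dj1, hj1]) (Dj0 _)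
        (by rw [Uj1, hm1]) (Uj0 _) (by rw [Dj1, hm1]) (Dj0 _)
        (hlr _ _ (cU0.symm.trans cU1) (by rw [Uj1]; exact ht1) xU1).2.symm
        (hrr _ _ cU1.symm xU1 hRt) (hrr _ _ (cU1.symm.trans cD1) xU1 xD1)
        (hrr _ _ (cU1.symm.trans cUr) xU1 xUr) (hrr _ _ (cU1.symm.trans cDr) xU1 xDr)
        _ (finite_Z m) (by
          intro t' ht'1 ht'2 hgen' hZ'
          obtain ⟨hgE, hNE⟩ := hNr t' (by linarith) hgen'
          by_contra hcon
          obtain ⟨i, hi1, hi2, hi3⟩ := exists_gap (m := m) (t := t')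
            (by have : (0 : ℝ) ≤ j := Nat.cast_nonneg j; linarith) ht'2 hZ'
          refine hmax i ?_ ⟨hi1, t', hi2, hi3, hgE, by rw [hNE]; omega⟩
          have : (j : ℝ) < i := by linarith
          exact_mod_cast this)
      linarith
    · push Not at hex
      have hN2 : ∀ t, 0 < t → t < 2 * ((m : ℝ) - 1) →
          t ∉ {s : ℝ | ∃ e ∈ E, e.1 1 = s ∨ e.2 1 = s} ∪ {s : ℝ | ∃ i < m, s = 2 * (i : ℝ)} →
          (2 : ℝ) ≤ (E.map fun e => (1 : ℝ) * cr t (e.1 1) (e.2 1)).sum := by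
        intro t h0 h1 h2
        have hg : Gen E t := gen_of_not_exc fun h => h2 (Or.inl h)
        obtain ⟨i, hi1, hi2, hi3⟩ := exists_gap (m := m) (t := t) h0 h1 fun h => h2 (Or.inr h)
        have := hex i hi1 t hi2 hi3 hg
        simp only [one_mul]
        rw [← N_cast]
        exact_mod_cast this
      have hN1 : ∀ t, 2 * ((m : ℝ) - 1) < t → t < R 1 →
          t ∉ {s : ℝ | ∃ e ∈ E, e.1 1 = s ∨ e.2 1 = s} →
          (1 : ℝ) ≤ (E.map fun e => (1 : ℝ) * cr t (e.1 1) (e.2 1)).sum := by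
        intro t h0 h1 h2
        have := one_le_N (gen_of_not_exc h2) (hconn 0 (by omega)).1.symm
          (by rw [Uj1]; push_cast; linarith) h1
        simp only [one_mul]
        rw [← N_cast]
        exact_mod_cast this
      have hint : ∀ p q, IntervalIntegrable (fun s => (E.map fun e => (1 : ℝ) * cr s (e.1 1) (e.2 1)).sum)
          volume p q := fun p q => intervalIntegrable_wsum E (fun _ => 1) (fun e => e.1 1) (fun e => e.2 1) p q
      have I1 := const_le_integral (p := 0) (q := 2 * ((m : ℝ) - 1)) (by linarith) (hint _ _) _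
        ((finite_exc E 1).union (finite_Z m)) hN2
      have I2 := const_le_integral hR (hint _ _) _ (finite_exc E 1) hN1
      have I3 := intervalIntegral.integral_add_adjacent_intervals (hint 0 (2 * ((m : ℝ) - 1)))
        (hint (2 * ((m : ℝ) - 1)) (R 1))
      have I4 := weighted_bound E (fun _ => (1 : ℝ)) (fun e => e.1 1) (fun e => e.2 1)
        (fun _ _ => zero_le_one) (p := 0) (q := R 1) (by linarith)
      have I5 : (E.map fun e => (1 : ℝ) * |e.1 1 - e.2 1|).sum ≤ len E := by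
        apply List.sum_le_sum
        intro e _
        have := dist_ge (α := 1) (β := 0) (by norm_num) e.1 e.2
        linarith
      linarith

end Pool.Agent.Steiner
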