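import Mathlib

set_option autoImplicit false

open MeasureTheory

namespace Pool.Agent.Steiner

/-- the plane -/
abbrev P := EuclideanSpace ℝ (Fin 2)

/-- total length of a list of edges -/
noncomputable def len (E : List (P × P)) : ℝ := (E.map fun e => dist e.1 e.2).sum

/-- adjacency -/
def Adj (E : List (P × P)) (a b : P) : Prop := (a, b) ∈ E ∨ (b, a) ∈ E

/-- connectivity -/
def Conn (E : List (P × P)) (a b : P) : Prop := Relation.ReflTransGen (Adj E) a b

theorem Adj.symm {E : List (P × P)} {a b : P} (h : Adj E a b) : Adj E b a := Or.symm h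

theorem Conn.refl {E : List (P × P)} (a : P) : Conn E a a := Relation.ReflTransGen.refl

theorem Conn.symm {E : List (P × P)} {a b : P} (h : Conn E a b) : Conn E b a := by
  induction h with
  | refl => exact Relation.ReflTransGen.refl
  | tail _ h2 ih => exact Relation.ReflTransGen.head (Adj.symm h2) ih

theorem Conn.trans {E : List (P × P)} {a b c : P} (h : Conn E a b) (h' : Conn E b c) : Conn E a c :=
  Relation.ReflTransGen.trans h h'

theorem Conn.single {E : List (P × P)} {a b : P} (h : Adj E a b) : Conn E a b :=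
  Relation.ReflTransGen.single h

theorem Conn.mono {E E' : List (P × P)} (hsub : ∀ e ∈ E, e ∈ E') {a b : P} (h : Conn E a b) :
    Conn E' a b := by
  induction h with
  | refl => exact Relation.ReflTransGen.refl
  | tail _ h2 ih => exact ih.tail (Or.imp (hsub _) (hsub _) h2)

/-- crossing of a value by an interval -/
def Crs (s u v : ℝ) : Prop := (u < s ∧ s < v) ∨ (v < s ∧ s < u)

theorem Crs.symm {s u v : ℝ} (h : Crs s u v) : Crs s v u := Or.symm h

theorem crs_comm {s u v : ℝ} : Crs s u v ↔ Crs s v u := ⟨Crs.symm, Crs.symm⟩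

open Classical in
/-- crossing indicator -/
noncomputable def cr (s u v : ℝ) : ℝ := if Crs s u v then 1 else 0

theorem cr_comm (s u v : ℝ) : cr s u v = cr s v u := by
  classical
  unfold cr
  by_cases h : Crs s u v
  · rw [if_pos h, if_pos h.symm]
  · rw [if_neg h, if_neg fun h' => h h'.symm]

theorem cr_nonneg (s u v : ℝ) : 0 ≤ cr s u v := by
  unfold cr; split_ifs <;> norm_num

theorem cr_eq_indicator (u v : ℝ) :
    (fun s => cr s u v) = Set.indicator (Set.Ioo (min u v) (max u v)) (fun _ => (1 : ℝ)) := by
  classical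
  funext s
  unfold cr Crs
  rw [Set.indicator_apply]
  congr 1
  simp only [Set.mem_Ioo, eq_iff_iff, min_lt_iff, lt_max_iff]
  constructor
  · rintro (⟨h1, h2⟩ | ⟨h1, h2⟩)
    · exact ⟨Or.inl h1, Or.inr h2⟩
    · exact ⟨Or.inr h1, Or.inl h2⟩
  · rintro ⟨h1 | h1, h2 | h2⟩
    · linarith
    · exact Or.inl ⟨h1, h2⟩
    · exact Or.inr ⟨h1, h2⟩
    · linarith

theorem integrable_cr (u v : ℝ) : Integrable (fun s => cr s u v) := by
  rw [cr_eq_indicator]
  exact (integrable_indicator_iff measurableSet_Ioo).mpr (integrableOn_const (by simp) (by simp))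

theorem integral_cr_le (u v p q : ℝ) (hpq : p ≤ q) : ∫ s in p..q, cr s u v ≤ |u - v| := by
  have h1 : ∫ s in p..q, cr s u v ≤ ∫ s, cr s u v := by
    rw [intervalIntegral.integral_of_le hpq]
    exact setIntegral_le_integral (integrable_cr u v) (Filter.Eventually.of_forall fun s => cr_nonneg s u v)
  refine h1.trans (le_of_eq ?_)
  rw [cr_eq_indicator, integral_indicator measurableSet_Ioo]
  simp only [integral_const, MeasurableSet.univ, measureReal_restrict_apply, Set.univ_inter, smul_eq_mul,
    mul_one]
  rw [Real.volume_real_Ioo_of_le min_le_max, max_sub_min_eq_abs]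
  rw [abs_sub_comm]

/-- integral lower bound for weighted crossing sums -/
theorem weighted_bound {ι : Type*} (A : List ι) (w u v : ι → ℝ) (hw : ∀ i ∈ A, 0 ≤ w i)
    {p q : ℝ} (hpq : p ≤ q) :
    ∫ s in p..q, (A.map fun i => w i * cr s (u i) (v i)).sum ≤ (A.map fun i => w i * |u i - v i|).sum := by
  induction A with
  | nil => simp
  | cons i A ih =>
    simp only [List.map_cons, List.sum_cons]
    have hint : ∀ (B : List ι), IntervalIntegrable (fun s => (B.map fun i => w i * cr s (u i) (v i)).sum)
        volume p q := by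
      intro B
      induction B with
      | nil => simp
      | cons j B ih' =>
        simp only [List.map_cons, List.sum_cons]
        exact ((integrable_cr _ _).const_mul _).intervalIntegrable.add ih'
    rw [intervalIntegral.integral_add ((integrable_cr _ _).const_mul _).intervalIntegrable (hint A),
      intervalIntegral.integral_const_mul]
    have h1 := ih fun j hj => hw j (List.mem_cons_of_mem _ hj)
    have h2 := integral_cr_le (u i) (v i) p q hpq
    have h3 := hw i List.mem_cons_self
    have h4 : w i * ∫ s in p..q, cr s (u i) (v i) ≤ w i * |u i - v i| := by gcongr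
    linarith

theorem intervalIntegrable_wsum {ι : Type*} (B : List ι) (w u v : ι → ℝ) (p q : ℝ) :
    IntervalIntegrable (fun s => (B.map fun i => w i * cr s (u i) (v i)).sum) volume p q := by
  induction B with
  | nil => simp
  | cons j B ih' =>
    simp only [List.map_cons, List.sum_cons]
    exact ((integrable_cr _ _).const_mul _).intervalIntegrable.add ih'

/-- lower bound on an interval outside a finite set -/
theorem const_le_integral {f : ℝ → ℝ} {p q κ : ℝ} (hpq : p ≤ q) (hf : IntervalIntegrable f volume p q)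
    (Z : Set ℝ) (hZ : Z.Finite) (h : ∀ s, p < s → s < q → s ∉ Z → κ ≤ f s) :
    κ * (q - p) ≤ ∫ s in p..q, f s := by
  have h1 : ∫ _s in p..q, κ ≤ ∫ s in p..q, f s := by
    apply intervalIntegral.integral_mono_ae_restrict hpq (by simp) hf
    rw [Filter.EventuallyLE, ae_restrict_iff' measurableSet_Icc]
    have hZ0 : volume (Z ∪ {p, q}) = 0 := (hZ.union (by simp)).measure_zero _
    rw [← compl_mem_ae_iff] at hZ0
    filter_upwards [hZ0] with s hs hs2
    simp only [Set.mem_compl_iff, Set.mem_union, Set.mem_insert_iff, Set.mem_singleton_iff, not_or] at hs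
    exact h s (lt_of_le_of_ne hs2.1 (Ne.symm hs.2.1)) (lt_of_le_of_ne hs2.2 hs.2.2) hs.1
  rw [intervalIntegral.integral_const, smul_eq_mul] at h1
  linarith

/-- the weight inequality -/
theorem dist_ge {α β : ℝ} (h : α ^ 2 + β ^ 2 ≤ 1) (a b : P) :
    α * |a 1 - b 1| + β * |a 0 - b 0| ≤ dist a b := by
  rw [EuclideanSpace.dist_eq]
  apply Real.le_sqrt_of_sq_le
  rw [Fin.sum_univ_two, Real.dist_eq, Real.dist_eq]
  set X := |a 1 - b 1|
  set Y := |a 0 - b 0|
  nlinarith [sq_nonneg (α * Y - β * X), sq_nonneg X, sq_nonneg Y, mul_nonneg (sub_nonneg.mpr h) (sq_nonneg X),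
    mul_nonneg (sub_nonneg.mpr h) (sq_nonneg Y)]

end Pool.Agent.Steiner
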