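import Pool.Agent.Steiner.Piece

set_option autoImplicit false

open MeasureTheory

namespace Pool.Agent.Steiner

theorem finite_exc (E : List (P × P)) (k : Fin 2) : {s : ℝ | ∃ e ∈ E, e.1 k = s ∨ e.2 k = s}.Finite := by
  have : {s : ℝ | ∃ e ∈ E, e.1 k = s ∨ e.2 k = s} ⊆
      {s | s ∈ (E.map fun e => e.1 k)} ∪ {s | s ∈ (E.map fun e => e.2 k)} := by
    rintro s ⟨e, he, h | h⟩
    · left; exact List.mem_map.mpr ⟨e, he, h⟩
    · right; exact List.mem_map.mpr ⟨e, he, h⟩
  exact ((List.finite_toSet _).union (List.finite_toSet _)).subset this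

theorem gen_of_not_exc {E : List (P × P)} {t : ℝ} (h : t ∉ {s : ℝ | ∃ e ∈ E, e.1 1 = s ∨ e.2 1 = s}) :
    Gen E t := by
  intro e he
  simp only [Set.mem_ofPred_eq, not_exists, not_and, not_or] at h
  exact h e he

theorem cnt_lam {L : List ((P × P) × (Fin 3 → Bool))} (hL : ∀ e ∈ L, ∀ e' ∈ L, Lam e.2 e'.2)
    (C : P × P → Prop) (h : cnt L C true false true ≠ 0) :
    cnt L C false true true = 0 ∧ cnt L C true true false = 0 := by
  obtain ⟨e, he, h0, h1, h2⟩ := cnt_pos_mem h
  constructor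
  · by_contra hcon
    obtain ⟨e', he', h0', h1', h2'⟩ := cnt_pos_mem hcon
    rcases hL e he e' he' with h | h | h
    · have := h 0 h0; rw [h0'] at this; exact absurd this (by decide)
    · have := h 1 h1'; rw [h1] at this; exact absurd this (by decide)
    · exact h 2 ⟨h2, h2'⟩
  · by_contra hcon
    obtain ⟨e', he', h0', h1', h2'⟩ := cnt_pos_mem hcon
    rcases hL e he e' he' with h | h | h
    · have := h 2 h2; rw [h2'] at this; exact absurd this (by decide)
    · have := h 1 h1'; rw [h1] at this; exact absurd this (by decide)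
    · exact h 0 ⟨h0, h0'⟩

/-- parity of a label count -/
theorem parity_even {n : ℕ} {p : Prop} (h : Odd n ↔ ¬ p) (hp : p) : ∃ k, n = 2 * k := by
  have : ¬ Odd n := fun ho => (h.mp ho) hp
  rw [Nat.not_odd_iff_even] at this
  obtain ⟨k, hk⟩ := this
  exact ⟨k, by omega⟩

theorem parity_odd {n : ℕ} {p : Prop} (h : Odd n ↔ ¬ p) (hp : ¬ p) : ∃ k, n = 2 * k + 1 := by
  obtain ⟨k, hk⟩ := h.mpr hp
  exact ⟨k, by omega⟩

theorem piece (E : List (P × P)) (L R U1 D1 Ur Dr : P) {t1 t2 a b : ℝ}
    (h1a : t1 ≤ a) (hab : a ≤ b) (hb2 : b ≤ t2)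
    (hL : L 1 = t1) (hR : R 1 = t2)
    (hU1 : U1 1 = a) (hU1' : U1 0 = Real.sqrt 3) (hD1 : D1 1 = a) (hD1' : D1 0 = 0)
    (hUr : Ur 1 = b) (hUr' : Ur 0 = Real.sqrt 3) (hDr : Dr 1 = b) (hDr' : Dr 0 = 0)
    (cL : Conn E U1 L) (cR : Conn E U1 R) (cD1 : Conn E U1 D1) (cUr : Conn E U1 Ur) (cDr : Conn E U1 Dr)
    (Z : Set ℝ) (hZ : Z.Finite)
    (hN : ∀ t, a < t → t < b → Gen E t → t ∉ Z → 2 ≤ N E t) :
    (t2 - t1) + 4 / 5 * (b - a) + 3 / 2 ≤ len E := by
  classical
  obtain ⟨T, X, V, hG, hsum, hV, hT, hX⟩ := extract U1 E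
  set loc : Fin 3 → P := ![D1, Ur, Dr] with hloc
  have l0 : loc 0 = D1 := rfl
  have l1 : loc 1 = Ur := rfl
  have l2 : loc 2 = Dr := rfl
  set Ty := typed T loc with hTy
  have hlam : ∀ e ∈ Ty, ∀ e' ∈ Ty, Lam e.2 e'.2 := typed_lam T loc
  set Wv : ℝ → ℝ := fun s => (Ty.map fun e => wα (e.2 0) (e.2 1) (e.2 2) * cr s (e.1.1 1) (e.1.2 1)).sum +
    (X.map fun e => (1 : ℝ) * cr s (e.1 1) (e.2 1)).sum with hWv
  set Wh : ℝ → ℝ := fun s => (Ty.map fun e => wβ (e.2 0) (e.2 1) (e.2 2) * cr s (e.1.1 0) (e.1.2 0)).sum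
    with hWh
  -- genericity transfer
  have genT : ∀ (k : Fin 2) (s : ℝ), s ∉ {s : ℝ | ∃ e ∈ E, e.1 k = s ∨ e.2 k = s} →
      ∀ e ∈ T, e.1 k ≠ s ∧ e.2 k ≠ s := by
    intro k s hs e he
    simp only [Set.mem_ofPred_eq, not_exists, not_and, not_or] at hs
    rcases hT e he with h | h
    · exact hs e h
    · have := hs _ h
      exact ⟨this.2, this.1⟩
  -- vertical lines
  have vert : ∀ t, t ∉ {s : ℝ | ∃ e ∈ E, e.1 1 = s ∨ e.2 1 = s} →
      let C : P × P → Prop := fun e => Crs t (e.1 1) (e.2 1)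
      (Wv t = 1 * cnt Ty C false false false + 9 / 10 * cnt Ty C false false true +
        9 / 10 * cnt Ty C false true false + 9 / 10 * cnt Ty C false true true +
        9 / 10 * cnt Ty C true false false + 1 / 2 * cnt Ty C true false true +
        9 / 10 * cnt Ty C true true false + 9 / 10 * cnt Ty C true true true + N X t) ∧
      (N E t = cnt Ty C false false false + cnt Ty C false false true + cnt Ty C false true false +
        cnt Ty C false true true + cnt Ty C true false false + cnt Ty C true false true +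
        cnt Ty C true true false + cnt Ty C true true true + N X t) := by
    intro t ht C
    constructor
    · simp only [hWv]
      have h1 := fiber_sum Ty C wα
      simp only [wα] at h1
      have h2 : (Ty.map fun e => wα (e.2 0) (e.2 1) (e.2 2) * cr t (e.1.1 1) (e.1.2 1)).sum =
          (Ty.map fun e => wα (e.2 0) (e.2 1) (e.2 2) * (if C e.1 then (1 : ℝ) else 0)).sum := by
        congr 1
      rw [h2, fiber_sum Ty C wα, N_cast]
      simp only [wα, one_mul]
    · have h3 := hsum (fun a b => cr t (a 1) (b 1)) (fun a b => cr_comm _ _ _)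
      rw [← N_cast, ← N_cast, ← N_cast] at h3
      have h4 : (N T t : ℝ) =
          (Ty.map fun e => (fun _ _ _ => (1 : ℝ) : Bool → Bool → Bool → ℝ) (e.2 0) (e.2 1) (e.2 2) *
            (if C e.1 then (1 : ℝ) else 0)).sum := by
        rw [N_cast, ← typed_sum T loc]
        congr 1
        apply List.map_congr_left
        intro e _
        simp only [one_mul]
        rfl
      rw [h4, fiber_sum Ty C (fun _ _ _ => (1 : ℝ))] at h3
      have h5 : ((N E t : ℕ) : ℝ) = ((cnt Ty C false false false + cnt Ty C false false true + cnt Ty C false true false +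
        cnt Ty C false true true + cnt Ty C true false false + cnt Ty C true false true +
        cnt Ty C true true false + cnt Ty C true true true + N X t : ℕ) : ℝ) := by
        rw [h3]; push_cast; ring
      exact_mod_cast h5
  -- parities
  have par : ∀ (k : Fin 2) (t : ℝ), t ∉ {s : ℝ | ∃ e ∈ E, e.1 k = s ∨ e.2 k = s} →
      let C : P × P → Prop := fun e => Crs t (e.1 k) (e.2 k)
      (Odd (cnt Ty C true false false + cnt Ty C true false true + cnt Ty C true true false + cnt Ty C true true true)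
        ↔ ¬ (t < D1 k ↔ t < U1 k)) ∧
      (Odd (cnt Ty C false true false + cnt Ty C false true true + cnt Ty C true true false + cnt Ty C true true true)
        ↔ ¬ (t < Ur k ↔ t < U1 k)) ∧
      (Odd (cnt Ty C false false true + cnt Ty C false true true + cnt Ty C true false true + cnt Ty C true true true)
        ↔ ¬ (t < Dr k ↔ t < U1 k)) := by
    intro k t ht C
    obtain ⟨e0, e1, e2⟩ := label_cnt Ty C
    have p0 := typed_parity k t hG (genT k t ht) loc 0 (hV _ cD1)
    have p1 := typed_parity k t hG (genT k t ht) loc 1 (hV _ cUr)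
    have p2 := typed_parity k t hG (genT k t ht) loc 2 (hV _ cDr)
    rw [← e0, ← e1, ← e2]
    rw [← l0, ← l1, ← l2]
    exact ⟨p0, p1, p2⟩
  have hs3 : 0 < Real.sqrt 3 := Real.sqrt_pos.mpr (by norm_num)
  have hs3' : Real.sqrt 3 * Real.sqrt 3 = 3 := Real.mul_self_sqrt (by norm_num)
  -- left of the ladder piece
  have c1 : ∀ t, t1 < t → t < a → t ∉ {s : ℝ | ∃ e ∈ E, e.1 1 = s ∨ e.2 1 = s} → (1 : ℝ) ≤ Wv t := by
    intro t ht1 ht2 ht
    obtain ⟨v1, v2⟩ := vert t ht
    obtain ⟨p0, p1, p2⟩ := par 1 t ht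
    have hN1 : 1 ≤ N E t := one_le_N' (gen_of_not_exc ht) cL (by rw [hU1]; exact ht2) (by rw [hL]; exact ht1)
    have q0 := parity_even p0 (by rw [hD1, hU1])
    have q1 := parity_even p1 (by rw [hUr, hU1]; exact ⟨fun _ => ht2, fun h => h.trans_le hab⟩)
    have q2 := parity_even p2 (by rw [hDr, hU1]; exact ⟨fun _ => ht2, fun h => h.trans_le hab⟩)
    obtain ⟨k0, q0⟩ := q0
    obtain ⟨k1, q1⟩ := q1
    obtain ⟨k2, q2⟩ := q2
    rw [v1]
    simp only at v2 q0 q1 q2 ⊢
    generalize cnt Ty (fun e => Crs t (e.1 1) (e.2 1)) false false false = c000 at *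
    generalize cnt Ty (fun e => Crs t (e.1 1) (e.2 1)) false false true = c001 at *
    generalize cnt Ty (fun e => Crs t (e.1 1) (e.2 1)) false true false = c010 at *
    generalize cnt Ty (fun e => Crs t (e.1 1) (e.2 1)) false true true = c011 at *
    generalize cnt Ty (fun e => Crs t (e.1 1) (e.2 1)) true false false = c100 at *
    generalize cnt Ty (fun e => Crs t (e.1 1) (e.2 1)) true false true = c101 at *
    generalize cnt Ty (fun e => Crs t (e.1 1) (e.2 1)) true true false = c110 at *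
    generalize cnt Ty (fun e => Crs t (e.1 1) (e.2 1)) true true true = c111 at *
    have hfin : 10 ≤ 10 * c000 + 9 * c001 + 9 * c010 + 9 * c011 + 9 * c100 + 5 * c101 + 9 * c110 + 9 * c111 +
        10 * N X t := by
      by_contra hcon
      have hle : c001 + c010 + c011 + c100 + c101 + c110 + c111 ≤ 1 := by omega
      have z0 : c100 + c101 + c110 + c111 = 0 := by omega
      have z1 : c010 + c011 + c110 + c111 = 0 := by omega
      have z2 : c001 + c011 + c101 + c111 = 0 := by omega
      omega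
    have hfin' : (10 : ℝ) ≤ 10 * c000 + 9 * c001 + 9 * c010 + 9 * c011 + 9 * c100 + 5 * c101 + 9 * c110 +
        9 * c111 + 10 * N X t := by exact_mod_cast hfin
    linarith
  have c3 : ∀ t, b < t → t < t2 → t ∉ {s : ℝ | ∃ e ∈ E, e.1 1 = s ∨ e.2 1 = s} → (1 : ℝ) ≤ Wv t := by
    intro t ht1 ht2 ht
    obtain ⟨v1, v2⟩ := vert t ht
    obtain ⟨p0, p1, p2⟩ := par 1 t ht
    have hN1 : 1 ≤ N E t := one_le_N (gen_of_not_exc ht) cR (by rw [hU1]; exact hab.trans_lt ht1)
      (by rw [hR]; exact ht2)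
    have q0 := parity_even p0 (by rw [hD1, hU1])
    have q1 := parity_even p1 (by
      rw [hUr, hU1]; exact ⟨fun h => absurd h (by linarith), fun h => absurd h (by linarith)⟩)
    have q2 := parity_even p2 (by
      rw [hDr, hU1]; exact ⟨fun h => absurd h (by linarith), fun h => absurd h (by linarith)⟩)
    obtain ⟨k0, q0⟩ := q0
    obtain ⟨k1, q1⟩ := q1
    obtain ⟨k2, q2⟩ := q2
    rw [v1]
    simp only at v2 q0 q1 q2 ⊢
    generalize cnt Ty (fun e => Crs t (e.1 1) (e.2 1)) false false false = c000 at *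
    generalize cnt Ty (fun e => Crs t (e.1 1) (e.2 1)) false false true = c001 at *
    generalize cnt Ty (fun e => Crs t (e.1 1) (e.2 1)) false true false = c010 at *
    generalize cnt Ty (fun e => Crs t (e.1 1) (e.2 1)) false true true = c011 at *
    generalize cnt Ty (fun e => Crs t (e.1 1) (e.2 1)) true false false = c100 at *
    generalize cnt Ty (fun e => Crs t (e.1 1) (e.2 1)) true false true = c101 at *
    generalize cnt Ty (fun e => Crs t (e.1 1) (e.2 1)) true true false = c110 at *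
    generalize cnt Ty (fun e => Crs t (e.1 1) (e.2 1)) true true true = c111 at *
    have hfin : 10 ≤ 10 * c000 + 9 * c001 + 9 * c010 + 9 * c011 + 9 * c100 + 5 * c101 + 9 * c110 + 9 * c111 +
        10 * N X t := by
      by_contra hcon
      have hle : c001 + c010 + c011 + c100 + c101 + c110 + c111 ≤ 1 := by omega
      have z0 : c100 + c101 + c110 + c111 = 0 := by omega
      have z1 : c010 + c011 + c110 + c111 = 0 := by omega
      have z2 : c001 + c011 + c101 + c111 = 0 := by omega
      omega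
    have hfin' : (10 : ℝ) ≤ 10 * c000 + 9 * c001 + 9 * c010 + 9 * c011 + 9 * c100 + 5 * c101 + 9 * c110 +
        9 * c111 + 10 * N X t := by exact_mod_cast hfin
    linarith
  have c2 : ∀ t, a < t → t < b → t ∉ {s : ℝ | ∃ e ∈ E, e.1 1 = s ∨ e.2 1 = s} ∪ Z →
      (9 / 5 : ℝ) ≤ Wv t := by
    intro t ht1 ht2 ht'
    have ht : t ∉ {s : ℝ | ∃ e ∈ E, e.1 1 = s ∨ e.2 1 = s} := fun h => ht' (Or.inl h)
    have htZ : t ∉ Z := fun h => ht' (Or.inr h)
    obtain ⟨v1, v2⟩ := vert t ht
    obtain ⟨p0, p1, p2⟩ := par 1 t ht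
    have hN1 : 2 ≤ N E t := hN t ht1 ht2 (gen_of_not_exc ht) htZ
    have q0 := parity_even p0 (by rw [hD1, hU1])
    have q1 := parity_odd p1 (by rw [hUr, hU1]; intro h; linarith [h.mp ht2])
    have q2 := parity_odd p2 (by rw [hDr, hU1]; intro h; linarith [h.mp ht2])
    have q3 : cnt Ty (fun e => Crs t (e.1 1) (e.2 1)) true false true = 0 ∨
        (cnt Ty (fun e => Crs t (e.1 1) (e.2 1)) false true true = 0 ∧
        cnt Ty (fun e => Crs t (e.1 1) (e.2 1)) true true false = 0) := by
      by_cases h : cnt Ty (fun e => Crs t (e.1 1) (e.2 1)) true false true = 0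
      · exact Or.inl h
      · exact Or.inr (cnt_lam hlam _ h)
    obtain ⟨k0, q0⟩ := q0
    obtain ⟨k1, q1⟩ := q1
    obtain ⟨k2, q2⟩ := q2
    rw [v1]
    simp only at v2 q0 q1 q2 q3 ⊢
    generalize cnt Ty (fun e => Crs t (e.1 1) (e.2 1)) false false false = c000 at *
    generalize cnt Ty (fun e => Crs t (e.1 1) (e.2 1)) false false true = c001 at *
    generalize cnt Ty (fun e => Crs t (e.1 1) (e.2 1)) false true false = c010 at *
    generalize cnt Ty (fun e => Crs t (e.1 1) (e.2 1)) false true true = c011 at *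
    generalize cnt Ty (fun e => Crs t (e.1 1) (e.2 1)) true false false = c100 at *
    generalize cnt Ty (fun e => Crs t (e.1 1) (e.2 1)) true false true = c101 at *
    generalize cnt Ty (fun e => Crs t (e.1 1) (e.2 1)) true true false = c110 at *
    generalize cnt Ty (fun e => Crs t (e.1 1) (e.2 1)) true true true = c111 at *
    have hfin : 18 ≤ 10 * c000 + 9 * c001 + 9 * c010 + 9 * c011 + 9 * c100 + 5 * c101 + 9 * c110 + 9 * c111 +
        10 * N X t := by
      by_cases h101 : c101 = 0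
      · omega
      · rcases q3 with h | ⟨h011, h110⟩
        · exact absurd h h101
        · subst h011 h110
          have e1 : 1 ≤ c010 + c111 := by omega
          have e2 : 1 ≤ c100 + c001 := by
            by_contra hcon
            have z1 : c100 = 0 := by omega
            have z2 : c001 = 0 := by omega
            subst z1 z2
            omega
          omega
    have hfin' : (18 : ℝ) ≤ 10 * c000 + 9 * c001 + 9 * c010 + 9 * c011 + 9 * c100 + 5 * c101 + 9 * c110 +
        9 * c111 + 10 * N X t := by exact_mod_cast hfin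
    linarith
  -- horizontal lines
  have c4 : ∀ s, 0 < s → s < Real.sqrt 3 → s ∉ {s : ℝ | ∃ e ∈ E, e.1 0 = s ∨ e.2 0 = s} →
      Real.sqrt 3 / 2 ≤ Wh s := by
    intro t ht1 ht2 ht
    obtain ⟨p0, p1, p2⟩ := par 0 t ht
    have q0 := parity_odd p0 (by rw [hD1', hU1']; intro h; linarith [h.mpr ht2])
    have q1 := parity_even p1 (by rw [hUr', hU1'])
    have q2 := parity_odd p2 (by rw [hDr', hU1']; intro h; linarith [h.mpr ht2])
    obtain ⟨k0, q0⟩ := q0
    obtain ⟨k1, q1⟩ := q1
    obtain ⟨k2, q2⟩ := q2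
    have h2 : Wh t =
        (Ty.map fun e => wβ (e.2 0) (e.2 1) (e.2 2) *
          (if (fun e : P × P => Crs t (e.1 0) (e.2 0)) e.1 then (1 : ℝ) else 0)).sum := by
      simp only [hWh]
      congr 1
    rw [h2, fiber_sum Ty (fun e => Crs t (e.1 0) (e.2 0)) wβ]
    simp only [wβ] at *
    generalize cnt Ty (fun e => Crs t (e.1 0) (e.2 0)) false false false = c000 at *
    generalize cnt Ty (fun e => Crs t (e.1 0) (e.2 0)) false false true = c001 at *
    generalize cnt Ty (fun e => Crs t (e.1 0) (e.2 0)) false true false = c010 at *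
    generalize cnt Ty (fun e => Crs t (e.1 0) (e.2 0)) false true true = c011 at *
    generalize cnt Ty (fun e => Crs t (e.1 0) (e.2 0)) true false false = c100 at *
    generalize cnt Ty (fun e => Crs t (e.1 0) (e.2 0)) true false true = c101 at *
    generalize cnt Ty (fun e => Crs t (e.1 0) (e.2 0)) true true false = c110 at *
    generalize cnt Ty (fun e => Crs t (e.1 0) (e.2 0)) true true true = c111 at *
    have hfin : 2 ≤ c001 + c010 + c011 + c100 + 2 * c101 + c110 + c111 := by omega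
    have hfin' : (2 : ℝ) ≤ c001 + c010 + c011 + c100 + 2 * c101 + c110 + c111 := by exact_mod_cast hfin
    nlinarith
  -- integration
  have iWv : ∀ p q, IntervalIntegrable Wv volume p q := fun p q =>
    (intervalIntegrable_wsum Ty (fun e => wα (e.2 0) (e.2 1) (e.2 2)) (fun e => e.1.1 1) (fun e => e.1.2 1) p q).add
      (intervalIntegrable_wsum X (fun _ => (1 : ℝ)) (fun e => e.1 1) (fun e => e.2 1) p q)
  have iWh : ∀ p q, IntervalIntegrable Wh volume p q := fun p q =>
    intervalIntegrable_wsum Ty (fun e => wβ (e.2 0) (e.2 1) (e.2 2)) (fun e => e.1.1 0) (fun e => e.1.2 0) p q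
  have I1 := const_le_integral h1a (iWv t1 a) _ (finite_exc E 1) c1
  have I2 := const_le_integral hab (iWv a b) _ ((finite_exc E 1).union hZ) c2
  have I3 := const_le_integral hb2 (iWv b t2) _ (finite_exc E 1) c3
  have I4 := const_le_integral hs3.le (iWh 0 (Real.sqrt 3)) _ (finite_exc E 0) c4
  have J1 : (∫ s in t1..a, Wv s) + (∫ s in a..b, Wv s) + (∫ s in b..t2, Wv s) = ∫ s in t1..t2, Wv s := by
    rw [intervalIntegral.integral_add_adjacent_intervals (iWv t1 a) (iWv a b),
      intervalIntegral.integral_add_adjacent_intervals (iWv t1 b) (iWv b t2)]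
  have J2 : ∫ s in t1..t2, Wv s ≤
      (Ty.map fun e => wα (e.2 0) (e.2 1) (e.2 2) * |e.1.1 1 - e.1.2 1|).sum +
      (X.map fun e => (1 : ℝ) * |e.1 1 - e.2 1|).sum := by
    have ht12 : t1 ≤ t2 := by linarith
    have e1 := weighted_bound Ty (fun e => wα (e.2 0) (e.2 1) (e.2 2)) (fun e => e.1.1 1) (fun e => e.1.2 1)
      (fun e _ => wα_nonneg _ _ _) ht12
    have e2 := weighted_bound X (fun _ => (1 : ℝ)) (fun e => e.1 1) (fun e => e.2 1)
      (fun e _ => zero_le_one) ht12
    simp only [hWv]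
    rw [intervalIntegral.integral_add
      (intervalIntegrable_wsum Ty (fun e => wα (e.2 0) (e.2 1) (e.2 2)) (fun e => e.1.1 1) (fun e => e.1.2 1) t1 t2)
      (intervalIntegrable_wsum X (fun _ => (1 : ℝ)) (fun e => e.1 1) (fun e => e.2 1) t1 t2)]
    linarith
  have J3 : ∫ s in (0 : ℝ)..(Real.sqrt 3), Wh s ≤
      (Ty.map fun e => wβ (e.2 0) (e.2 1) (e.2 2) * |e.1.1 0 - e.1.2 0|).sum :=
    weighted_bound Ty (fun e => wβ (e.2 0) (e.2 1) (e.2 2)) (fun e => e.1.1 0) (fun e => e.1.2 0)
      (fun e _ => wβ_nonneg _ _ _) hs3.le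
  have K1 : (Ty.map fun e => wα (e.2 0) (e.2 1) (e.2 2) * |e.1.1 1 - e.1.2 1|).sum +
      (Ty.map fun e => wβ (e.2 0) (e.2 1) (e.2 2) * |e.1.1 0 - e.1.2 0|).sum ≤
      (T.map fun e => dist e.1 e.2).sum := by
    rw [← typed_sum T loc (fun e => dist e.1 e.2), ← List.sum_map_add]
    apply List.sum_le_sum
    intro e _
    exact dist_ge (w_ok _ _ _) _ _
  have K2 : (X.map fun e => (1 : ℝ) * |e.1 1 - e.2 1|).sum ≤ (X.map fun e => dist e.1 e.2).sum := by
    apply List.sum_le_sum
    intro e _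
    have := dist_ge (α := 1) (β := 0) (by norm_num) e.1 e.2
    linarith
  have K3 : len E = (T.map fun e => dist e.1 e.2).sum + (X.map fun e => dist e.1 e.2).sum :=
    hsum (fun a b => dist a b) (fun a b => dist_comm a b)
  rw [K3]
  nlinarith

end Pool.Agent.Steiner
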