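import Pool.Agent.Steiner.Tree

set_option autoImplicit false

open MeasureTheory

namespace Pool.Agent.Steiner

/-- `t` is a generic abscissa -/
def Gen (E : List (P × P)) (t : ℝ) : Prop := ∀ e ∈ E, e.1 1 ≠ t ∧ e.2 1 ≠ t

open Classical in
/-- number of edges crossing the line `x = t` -/
noncomputable def N (E : List (P × P)) (t : ℝ) : ℕ :=
  E.countP fun e => decide (Crs t (e.1 1) (e.2 1))

theorem N_cast (E : List (P × P)) (t : ℝ) :
    (N E t : ℝ) = (E.map fun e => cr t (e.1 1) (e.2 1)).sum := by
  classical
  unfold N
  induction E with
  | nil => simp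
  | cons e E ih =>
    rw [List.countP_cons, List.map_cons, List.sum_cons, ← ih]
    unfold cr
    by_cases h : Crs t (e.1 1) (e.2 1)
    · simp only [h, decide_true, if_true]; push_cast; ring
    · simp only [h, decide_false, Bool.false_eq_true, if_false]; push_cast; ring

theorem one_le_N {E : List (P × P)} {a b : P} {t : ℝ} (hgen : Gen E t) (h : Conn E a b) (ha : a 1 < t)
    (hb : t < b 1) : 1 ≤ N E t := by
  classical
  by_contra hN
  have hN0 : N E t = 0 := by omega
  unfold N at hN0
  rw [List.countP_eq_zero] at hN0
  have key : b 1 < t := by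
    clear hb
    induction h with
    | refl => exact ha
    | tail _ hadj ih =>
      rename_i c d _
      rcases hadj with h | h
      · have h1 := hN0 _ h
        have h2 := hgen _ h
        simp only [decide_eq_true_eq] at h1 h2
        rcases lt_or_gt_of_ne h2.2 with h3 | h3
        · exact h3
        · exact absurd (Or.inl ⟨ih, h3⟩) h1
      · have h1 := hN0 _ h
        have h2 := hgen _ h
        simp only [decide_eq_true_eq] at h1 h2
        rcases lt_or_gt_of_ne h2.1 with h3 | h3
        · exact h3
        · exact absurd (Or.inr ⟨ih, h3⟩) h1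
  linarith

theorem one_le_N' {E : List (P × P)} {a b : P} {t : ℝ} (hgen : Gen E t) (h : Conn E a b) (ha : t < a 1)
    (hb : b 1 < t) : 1 ≤ N E t := one_le_N hgen h.symm hb ha

open Classical in
/-- counters of crossing edges by type -/
noncomputable def cnt (L : List ((P × P) × (Fin 3 → Bool))) (C : P × P → Prop) (x y z : Bool) : ℕ :=
  L.countP fun e => decide (e.2 0 = x ∧ e.2 1 = y ∧ e.2 2 = z ∧ C e.1)

open Classical in
theorem fiber_sum (L : List ((P × P) × (Fin 3 → Bool))) (C : P × P → Prop) (w : Bool → Bool → Bool → ℝ) :
    (L.map fun e => w (e.2 0) (e.2 1) (e.2 2) * (if C e.1 then (1 : ℝ) else 0)).sum =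
      w false false false * cnt L C false false false + w false false true * cnt L C false false true
      + w false true false * cnt L C false true false + w false true true * cnt L C false true true
      + w true false false * cnt L C true false false + w true false true * cnt L C true false true
      + w true true false * cnt L C true true false + w true true true * cnt L C true true true := by
  induction L with
  | nil => simp [cnt]
  | cons e L ih =>
    rw [List.map_cons, List.sum_cons, ih]
    unfold cnt
    simp only [List.countP_cons]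
    by_cases hC : C e.1
    · rcases h0 : e.2 0 <;> rcases h1 : e.2 1 <;> rcases h2 : e.2 2 <;>
        simp [hC] <;> ring
    · rcases h0 : e.2 0 <;> rcases h1 : e.2 1 <;> rcases h2 : e.2 2 <;>
        simp [hC]

open Classical in
theorem label_cnt (L : List ((P × P) × (Fin 3 → Bool))) (C : P × P → Prop) :
    L.countP (fun e => decide (e.2 0 = true ∧ C e.1)) =
      cnt L C true false false + cnt L C true false true + cnt L C true true false + cnt L C true true true ∧
    L.countP (fun e => decide (e.2 1 = true ∧ C e.1)) =
      cnt L C false true false + cnt L C false true true + cnt L C true true false + cnt L C true true true ∧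
    L.countP (fun e => decide (e.2 2 = true ∧ C e.1)) =
      cnt L C false false true + cnt L C false true true + cnt L C true false true + cnt L C true true true := by
  induction L with
  | nil => simp [cnt]
  | cons e L ih =>
    obtain ⟨i0, i1, i2⟩ := ih
    simp only [List.countP_cons, i0, i1, i2]
    unfold cnt
    simp only [List.countP_cons]
    by_cases hC : C e.1
    · rcases h0 : e.2 0 <;> rcases h1 : e.2 1 <;> rcases h2 : e.2 2 <;>
        simp [hC] <;> omega
    · rcases h0 : e.2 0 <;> rcases h1 : e.2 1 <;> rcases h2 : e.2 2 <;>
        simp [hC]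

theorem cnt_pos_mem {L : List ((P × P) × (Fin 3 → Bool))} {C : P × P → Prop} {x y z : Bool}
    (h : cnt L C x y z ≠ 0) : ∃ e ∈ L, e.2 0 = x ∧ e.2 1 = y ∧ e.2 2 = z := by
  classical
  unfold cnt at h
  by_contra hcon
  push Not at hcon
  apply h
  rw [List.countP_eq_zero]
  intro e he
  simp only [decide_eq_true_eq]
  rintro ⟨h1, h2, h3, _⟩
  exact hcon e he h1 h2 h3

/-- vertical weights -/
noncomputable def wα : Bool → Bool → Bool → ℝ
  | false, false, false => 1
  | true, false, true => 1 / 2
  | _, _, _ => 9 / 10

/-- horizontal weights -/
noncomputable def wβ : Bool → Bool → Bool → ℝ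
  | false, false, false => 0
  | true, false, true => Real.sqrt 3 / 2
  | _, _, _ => Real.sqrt 3 / 4

theorem w_ok (x y z : Bool) : wα x y z ^ 2 + wβ x y z ^ 2 ≤ 1 := by
  have h3 : Real.sqrt 3 ^ 2 = 3 := Real.sq_sqrt (by norm_num)
  rcases x <;> rcases y <;> rcases z <;> simp only [wα, wβ] <;> nlinarith

theorem wα_nonneg (x y z : Bool) : 0 ≤ wα x y z := by
  rcases x <;> rcases y <;> rcases z <;> simp only [wα] <;> norm_num

theorem wβ_nonneg (x y z : Bool) : 0 ≤ wβ x y z := by
  rcases x <;> rcases y <;> rcases z <;> simp only [wβ] <;> positivity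

end Pool.Agent.Steiner
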