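import Pool.Agent.Steiner.Basic

set_option autoImplicit false

namespace Pool.Agent.Steiner

/-- trees grown from the root `r` by adding leaf edges (child, parent) -/
inductive Grow (r : P) : List (P × P) → Set P → Prop
  | nil : Grow r [] {r}
  | cons {T : List (P × P)} {V : Set P} (b a : P) (h : Grow r T V) (ha : a ∈ V) (hb : b ∉ V) :
      Grow r ((b, a) :: T) (insert b V)

theorem Grow.root_mem {r : P} {T : List (P × P)} {V : Set P} (h : Grow r T V) : r ∈ V := by
  induction h with
  | nil => simp
  | cons b a _ _ _ ih => exact Set.mem_insert_of_mem _ ih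

theorem Grow.edge_mem {r : P} {T : List (P × P)} {V : Set P} (h : Grow r T V) :
    ∀ e ∈ T, e.1 ∈ V ∧ e.2 ∈ V := by
  induction h with
  | nil => simp
  | cons b a _ ha _ ih =>
    intro e he
    rcases List.mem_cons.mp he with rfl | he
    · exact ⟨Set.mem_insert _ _, Set.mem_insert_of_mem _ ha⟩
    · exact ⟨Set.mem_insert_of_mem _ (ih e he).1, Set.mem_insert_of_mem _ (ih e he).2⟩

/-- extraction of a spanning tree -/
theorem extract_aux (r : P) : ∀ (n : ℕ) (F : List (P × P)), F.length = n → ∀ (T : List (P × P)) (V : Set P),
    Grow r T V → ∃ (T' X : List (P × P)) (V' : Set P), Grow r T' V' ∧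
      (∀ f : P → P → ℝ, (∀ a b, f a b = f b a) →
        (F.map fun e => f e.1 e.2).sum + (T.map fun e => f e.1 e.2).sum =
          (T'.map fun e => f e.1 e.2).sum + (X.map fun e => f e.1 e.2).sum) ∧
      (∀ e ∈ X, e.1 ∈ V' ↔ e.2 ∈ V') ∧ (∀ e ∈ X, e ∈ F) ∧ (∀ e ∈ T, e ∈ T') ∧
      (∀ e ∈ T', e ∈ T ∨ e ∈ F ∨ e.swap ∈ F) ∧
      (∀ e ∈ F, e ∈ X ∨ e ∈ T' ∨ e.swap ∈ T') := by
  intro n
  induction n with
  | zero =>
    intro F hF T V hT
    rw [List.length_eq_zero_iff] at hF
    subst hF
    refine ⟨T, [], V, hT, ?_, ?_, ?_, ?_, ?_, ?_⟩ <;> simp +contextual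
  | succ n ih =>
    intro F hF T V hT
    by_cases hex : ∃ e ∈ F, ¬ (e.1 ∈ V ↔ e.2 ∈ V)
    · obtain ⟨e, he, hne⟩ := hex
      obtain ⟨F1, F2, rfl⟩ := List.append_of_mem he
      have hlen : (F1 ++ F2).length = n := by
        simp only [List.length_append, List.length_cons] at hF ⊢
        omega
      obtain ⟨b, a, ha, hb, hab⟩ : ∃ b a, a ∈ V ∧ b ∉ V ∧ ((b, a) = e ∨ (b, a) = e.swap) := by
        by_cases h1 : e.1 ∈ V
        · refine ⟨e.2, e.1, h1, fun h2 => hne ⟨fun _ => h2, fun _ => h1⟩, Or.inr rfl⟩
        · refine ⟨e.1, e.2, ?_, h1, Or.inl rfl⟩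
          by_contra h2
          exact hne ⟨fun h => absurd h h1, fun h => absurd h h2⟩
      obtain ⟨T', X, V', h1, h2, h3, h4, h5, h6, h7⟩ := ih (F1 ++ F2) hlen _ _ (hT.cons b a ha hb)
      refine ⟨T', X, V', h1, ?_, h3, ?_, ?_, ?_, ?_⟩
      · intro f hf
        rw [← h2 f hf]
        have : f b a = f e.1 e.2 := by
          rcases hab with h | h
          · rw [← h]
          · rw [Prod.ext_iff] at h
            simp only [Prod.fst_swap, Prod.snd_swap] at h
            rw [h.1, h.2, hf]
        simp only [List.map_append, List.map_cons, List.sum_append, List.sum_cons, this]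
        ring
      · intro e' he'
        have := h4 e' he'
        simp only [List.mem_append, List.mem_cons] at this ⊢
        tauto
      · intro e' he'
        exact h5 e' (List.mem_cons_of_mem _ he')
      · intro e' he'
        rcases h6 e' he' with h | h | h
        · rcases List.mem_cons.mp h with rfl | h
          · rcases hab with h | h
            · right; left; rw [h]; exact he
            · right; right; rw [h, Prod.swap_swap]; exact he
          · exact Or.inl h
        · simp only [List.mem_append, List.mem_cons] at h ⊢
          tauto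
        · simp only [List.mem_append, List.mem_cons] at h ⊢
          tauto
      · intro e' he'
        have hmem : e' = e ∨ e' ∈ F1 ++ F2 := by
          simp only [List.mem_append, List.mem_cons] at he' ⊢
          tauto
        rcases hmem with rfl | hmem
        · right
          have hT' : (b, a) ∈ T' := h5 _ List.mem_cons_self
          rcases hab with h | h
          · left; rw [← h]; exact hT'
          · right; rw [← h]; exact hT'
        · exact h7 e' hmem
    · push Not at hex
      refine ⟨T, F, V, hT, ?_, hex, ?_, ?_, ?_, ?_⟩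
      · intro f _; ring
      all_goals simp +contextual

theorem extract (r : P) (E : List (P × P)) :
    ∃ (T X : List (P × P)) (V : Set P), Grow r T V ∧
      (∀ f : P → P → ℝ, (∀ a b, f a b = f b a) →
        (E.map fun e => f e.1 e.2).sum =
          (T.map fun e => f e.1 e.2).sum + (X.map fun e => f e.1 e.2).sum) ∧
      (∀ a, Conn E r a → a ∈ V) ∧ (∀ e ∈ T, e ∈ E ∨ e.swap ∈ E) ∧ (∀ e ∈ X, e ∈ E) := by
  obtain ⟨T', X, V', h1, h2, h3, h4, h5, h6, h7⟩ := extract_aux r _ E rfl [] {r} Grow.nil
  refine ⟨T', X, V', h1, ?_, ?_, ?_, h4⟩
  · intro f hf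
    rw [← h2 f hf]
    simp
  · intro a ha
    have key : ∀ e ∈ E, (e.1 ∈ V' ↔ e.2 ∈ V') := by
      intro e he
      rcases h7 e he with h | h | h
      · exact h3 e h
      · exact iff_of_true (h1.edge_mem e h).1 (h1.edge_mem e h).2
      · have := h1.edge_mem _ h
        exact iff_of_true this.2 this.1
    induction ha with
    | refl => exact h1.root_mem
    | tail _ hadj ih =>
      rcases hadj with h | h
      · exact (key _ h).mp ih
      · exact (key _ h).mpr ih
  · intro e he
    rcases h6 e he with h | h | h
    · simp at h
    · exact Or.inl h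
    · exact Or.inr h

open Classical in
/-- the tree edges labelled with the set of terminals whose path to the root uses the edge -/
noncomputable def typed {ι : Type*} : List (P × P) → (ι → P) → List ((P × P) × (ι → Bool))
  | [], _ => []
  | (b, a) :: T, loc => ((b, a), fun i => decide (loc i = b)) :: typed T (fun i => if loc i = b then a else loc i)

theorem typed_map_fst {ι : Type*} (T : List (P × P)) (loc : ι → P) :
    (typed T loc).map Prod.fst = T := by
  induction T generalizing loc with
  | nil => simp [typed]
  | cons e T ih =>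
    obtain ⟨b, a⟩ := e
    simp [typed, ih]

theorem typed_sum {ι : Type*} (T : List (P × P)) (loc : ι → P) (f : P × P → ℝ) :
    ((typed T loc).map fun e => f e.1).sum = (T.map f).sum := by
  conv_rhs => rw [← typed_map_fst T loc]
  rw [List.map_map]
  rfl

theorem typed_mem {ι : Type*} {T : List (P × P)} {loc : ι → P} {e : (P × P) × (ι → Bool)}
    (he : e ∈ typed T loc) : e.1 ∈ T := by
  rw [← typed_map_fst T loc]
  exact List.mem_map_of_mem he

/-- side of the line `z k = s` -/
theorem crs_iff {s u v : ℝ} (hu : u ≠ s) (hv : v ≠ s) : Crs s u v ↔ ¬ (s < u ↔ s < v) := by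
  unfold Crs
  rcases lt_or_gt_of_ne hu with h1 | h1 <;> rcases lt_or_gt_of_ne hv with h2 | h2
  · have h3 := h1.not_gt; have h4 := h2.not_gt; tauto
  · have h3 := h1.not_gt; have h4 := h2.not_gt; tauto
  · have h3 := h1.not_gt; have h4 := h2.not_gt; tauto
  · have h3 := h1.not_gt; have h4 := h2.not_gt; tauto

open Classical in
theorem typed_parity {ι : Type*} (k : Fin 2) (s : ℝ) {r : P} {T : List (P × P)} {V : Set P} (h : Grow r T V)
    (hgen : ∀ e ∈ T, e.1 k ≠ s ∧ e.2 k ≠ s) (loc : ι → P) (i : ι) (hi : loc i ∈ V) :
    Odd ((typed T loc).countP (fun e => decide (e.2 i = true ∧ Crs s (e.1.1 k) (e.1.2 k)))) ↔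
      ¬ (s < loc i k ↔ s < r k) := by
  induction h generalizing loc with
  | nil =>
    simp only [Set.mem_singleton_iff] at hi
    simp [typed, hi]
  | @cons T V b a hT ha hb ih =>
    have hgen' := fun e he => hgen e (List.mem_cons_of_mem _ he)
    have hba := hgen (b, a) List.mem_cons_self
    simp only at hba
    have hcr := crs_iff (s := s) hba.1 hba.2
    rw [typed, List.countP_cons]
    by_cases hloc : loc i = b
    · have hi' : (fun i => if loc i = b then a else loc i) i ∈ V := by
        simp only [hloc, if_true]; exact ha
      have := ih hgen' (fun i => if loc i = b then a else loc i) hi'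
      simp only [hloc, if_true] at this
      simp only [hloc, decide_true, true_and]
      by_cases hc : Crs s (b k) (a k)
      · simp only [hc, decide_true, if_true]
        rw [Nat.odd_add_one, this]
        rw [hcr] at hc
        tauto
      · simp only [hc, decide_false, Bool.false_eq_true, if_false, add_zero]
        rw [this]
        rw [hcr] at hc
        tauto
    · have hi' : (fun i => if loc i = b then a else loc i) i ∈ V := by
        simp only [hloc, if_false]
        rcases hi with hi | hi
        · exact absurd hi hloc
        · exact hi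
      have := ih hgen' (fun i => if loc i = b then a else loc i) hi'
      simp only [hloc, if_false] at this
      simp only [hloc, decide_false, Bool.false_eq_true, false_and, if_false, add_zero]
      exact this

/-- laminarity of two labels -/
def Lam {ι : Type*} (S S' : ι → Bool) : Prop :=
  (∀ i, S i = true → S' i = true) ∨ (∀ i, S' i = true → S i = true) ∨ (∀ i, ¬ (S i = true ∧ S' i = true))

theorem typed_eq_of_loc_eq {ι : Type*} (T : List (P × P)) (loc : ι → P) (i j : ι) (hij : loc i = loc j) :
    ∀ e ∈ typed T loc, e.2 i = e.2 j := by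
  induction T generalizing loc with
  | nil => simp [typed]
  | cons e T ih =>
    obtain ⟨b, a⟩ := e
    intro e he
    rw [typed] at he
    rcases List.mem_cons.mp he with rfl | he
    · simp [hij]
    · exact ih _ (by simp [hij]) e he

theorem typed_lam {ι : Type*} (T : List (P × P)) (loc : ι → P) :
    ∀ e ∈ typed T loc, ∀ e' ∈ typed T loc, Lam e.2 e'.2 := by
  classical
  induction T generalizing loc with
  | nil => simp [typed]
  | cons e T ih =>
    obtain ⟨b, a⟩ := e
    have key : ∀ e' ∈ typed T (fun i => if loc i = b then a else loc i),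
        (∀ i, decide (loc i = b) = true → e'.2 i = true) ∨
        (∀ i, ¬ (decide (loc i = b) = true ∧ e'.2 i = true)) := by
      intro e' he'
      by_cases hex : ∃ i, loc i = b ∧ e'.2 i = true
      · obtain ⟨i, hi, hi'⟩ := hex
        left
        intro j hj
        have hj' : loc j = b := by simpa using hj
        have := typed_eq_of_loc_eq T (fun i => if loc i = b then a else loc i) i j
          (by simp [hi, hj']) e' he'
        rw [← this, hi']
      · push Not at hex
        right
        rintro i ⟨h1, h2⟩
        exact hex i (by simpa using h1) h2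
    intro e he e' he'
    rw [typed] at he he'
    rcases List.mem_cons.mp he with rfl | he1 <;> rcases List.mem_cons.mp he' with rfl | he1'
    · exact Or.inl fun i h => h
    · rcases key e' he1' with h | h
      · exact Or.inl h
      · exact Or.inr (Or.inr h)
    · rcases key e he1 with h | h
      · exact Or.inr (Or.inl h)
      · exact Or.inr (Or.inr fun i hi => h i hi.symm)
    · exact ih _ e he1 e' he1'

end Pool.Agent.Steiner
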